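import Pool.Agent.helper21.KBR3.Chart

/-!
# MP_07cd05_gt, Kähler domains: module C8 (smooth map with prescribed first order jet on the sphere)
-/

noncomputable section

namespace KBR

open Set MeasureTheory Filter Topology
open scoped ContDiff RealInnerProductSpace

variable {n m : ℕ}

namespace C8

/-- cutoff: zero for `‖x‖ ≤ 1/2`, one for `‖x‖² ≥ 1/2` -/
def chi (x : E n) : ℝ := Real.smoothTransition (4 * ‖x‖ ^ 2 - 1)

lemma chi_smooth : ContDiff ℝ ∞ (chi : E n → ℝ) :=
  Real.smoothTransition.contDiff.comp ((contDiff_const.mul (contDiff_norm_sq ℝ)).sub contDiff_const)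

/-- radial projection -/
def rp (x : E n) : E n := ‖x‖⁻¹ • x

lemma rp_smooth {x : E n} (hx : x ≠ 0) : ContDiffAt ℝ ∞ (rp : E n → E n) x :=
  ((contDiffAt_norm ℝ hx).inv (norm_ne_zero_iff.2 hx)).smul contDiffAt_id

lemma rp_mem {x : E n} (hx : x ≠ 0) : rp x ∈ bM n := by
  simp only [bM, rp, mem_sphere_zero_iff_norm, norm_smul, norm_inv, norm_norm]
  exact inv_mul_cancel₀ (norm_ne_zero_iff.2 hx)

lemma rp_eq {x : E n} (hx : x ∈ bM n) : rp x = x := by
  have h : ‖x‖ = 1 := by simpa [bM] using hx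
  simp [rp, h]

end C8

open C8 in
/-- MODULE C8 (`jet_ext`): a smooth map with prescribed first order jet on the sphere. -/
theorem jet_ext {Φ : E n → Cn m} (hΦ : ContDiff ℝ ∞ Φ) {F : E n → E n →L[ℝ] E n}
    (hF : ∀ x ∈ bM n, ContDiffAt ℝ ∞ F x) (hFt : ∀ x ∈ bM n, ∀ v, ⟪x, v⟫ = 0 → F x v = v) :
    ∃ u : E n → Cn m, ContDiff ℝ ∞ u ∧ ∀ x ∈ bM n, u x = Φ x ∧
      ∀ v, fderiv ℝ u x v = fderiv ℝ Φ x (F x v) := by
  let g : E n → Cn m := fun x => fderiv ℝ Φ x (F (rp x) x - x)
  let b : E n → ℝ := fun x => (1 / 2) * (‖x‖ ^ 2 - 1) * chi x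
  have hb : ContDiff ℝ ∞ b :=
    (contDiff_const.mul ((contDiff_norm_sq ℝ).sub contDiff_const)).mul chi_smooth
  have hg : ∀ x : E n, x ≠ 0 → ContDiffAt ℝ ∞ g x := by
    intro x hx
    have h1 : ContDiffAt ℝ ∞ (fun y => F (rp y)) x :=
      (hF (rp x) (rp_mem hx)).comp x (rp_smooth hx)
    have h2 : ContDiffAt ℝ ∞ (fun y => F (rp y) y - y) x :=
      (h1.clm_apply contDiffAt_id).sub contDiffAt_id
    have h3 : ContDiffAt ℝ ∞ (fun y => fderiv ℝ Φ y) x :=
      (hΦ.fderiv_right (m := ∞) (by simp)).contDiffAt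
    exact h3.clm_apply h2
  refine ⟨fun x => Φ x + b x • g x, ?_, ?_⟩
  · rw [contDiff_iff_contDiffAt]
    intro x
    by_cases hx : ‖x‖ < 1 / 2
    · have h1 : (fun y => Φ y + b y • g y) =ᶠ[𝓝 x] Φ := by
        filter_upwards [(isOpen_lt continuous_norm continuous_const).mem_nhds hx] with y hy
        have hy' : ‖y‖ < 1 / 2 := hy
        have h2 : chi y = 0 := by
          apply Real.smoothTransition.zero_of_nonpos
          nlinarith [norm_nonneg y]
        simp [b, h2]
      exact hΦ.contDiffAt.congr_of_eventuallyEq h1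
    · have hx0 : x ≠ 0 := by
        rintro rfl
        apply hx
        norm_num
      exact hΦ.contDiffAt.add (hb.contDiffAt.smul (hg x hx0))
  · intro x hx
    have hx1 : ‖x‖ = 1 := by simpa [bM] using hx
    have hx0 : x ≠ 0 := by rintro rfl; simp at hx1
    have hbx : b x = 0 := by simp [b, hx1]
    have hgx : g x = fderiv ℝ Φ x (F x x - x) := by simp [g, rp_eq hx]
    refine ⟨by simp [hbx], ?_⟩
    intro v
    -- derivative of `b` at `x`
    have hb1 : b =ᶠ[𝓝 x] fun y => (1 / 2) * (‖y‖ ^ 2 - 1) := by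
      have h1 : (1 / 2 : ℝ) < ‖x‖ ^ 2 := by rw [hx1]; norm_num
      filter_upwards [(isOpen_lt continuous_const (continuous_norm.pow 2)).mem_nhds h1] with y hy
      have hy' : (1 / 2 : ℝ) < ‖y‖ ^ 2 := hy
      have h2 : chi y = 1 := by
        apply Real.smoothTransition.one_of_one_le
        linarith
      simp [b, h2]
    have hb2 : HasFDerivAt b (innerSL ℝ x) x := by
      have h1 : HasFDerivAt (fun y : E n => (1 / 2 : ℝ) * (‖y‖ ^ 2 - 1))
          ((1 / 2 : ℝ) • (2 • innerSL ℝ x)) x :=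
        (((hasStrictFDerivAt_norm_sq x).hasFDerivAt).sub_const 1).const_mul (1 / 2)
      have h2 : ((1 / 2 : ℝ) • (2 • innerSL ℝ x)) = innerSL ℝ x := by
        rw [two_smul]
        rw [← two_smul ℝ (innerSL ℝ x), smul_smul]
        norm_num
      rw [h2] at h1
      exact h1.congr_of_eventuallyEq hb1
    have hgd : HasFDerivAt g (fderiv ℝ g x) x := ((hg x hx0).differentiableAt (by simp)).hasFDerivAt
    have hΦd : HasFDerivAt Φ (fderiv ℝ Φ x) x := (hΦ.differentiable (by simp) x).hasFDerivAt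
    have hud := hΦd.add (hb2.smul hgd)
    have h4 : fderiv ℝ (fun x => Φ x + b x • g x) x = _ := hud.fderiv
    rw [h4]
    have h5 : F x v = v + (⟪x, v⟫ : ℝ) • (F x x - x) := by
      have h6 : ⟪x, v - (⟪x, v⟫ : ℝ) • x⟫ = 0 := by
        rw [inner_sub_right, inner_smul_right, real_inner_self_eq_norm_sq, hx1]
        ring
      have h7 := hFt x hx _ h6
      rw [map_sub, map_smul] at h7
      have h8 : F x v = (v - (⟪x, v⟫ : ℝ) • x) + (⟪x, v⟫ : ℝ) • F x x := by
        rw [← h7]; abel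
      rw [h8, smul_sub]; abel
    rw [h5, map_add, map_smul]
    simp [hbx, hgx]

end KBR
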