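import Mathlib

/-!
# MP_07cd05_gt, Kähler domains: modules C3 (extension by zero) and C6 (identity theorem)
-/

noncomputable section

namespace KBR

open Set MeasureTheory Filter Topology
open scoped ContDiff RealInnerProductSpace

/-- MODULE C3 (`zext`): extension by zero of a `C¹` map vanishing to first order on the
boundary. -/
theorem zext {V W : Type*} [NormedAddCommGroup V] [NormedSpace ℝ V] [NormedAddCommGroup W]
    [NormedSpace ℝ W] {K : Set V} (hK : IsClosed K) {g : V → W} (hg : ContDiff ℝ 1 g)
    (h0 : ∀ z ∈ frontier K, g z = 0 ∧ fderiv ℝ g z = 0) :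
    ContDiff ℝ 1 (indicator K g) ∧ ∀ z, fderiv ℝ (indicator K g) z = indicator K (fderiv ℝ g) z := by
  have hd : Differentiable ℝ g := hg.differentiable (by simp)
  have key : ∀ z, HasFDerivAt (indicator K g) (indicator K (fderiv ℝ g) z) z := by
    intro z
    by_cases hz : z ∈ interior K
    · have h1 : indicator K g =ᶠ[𝓝 z] g := by
        filter_upwards [isOpen_interior.mem_nhds hz] with y hy
        exact indicator_of_mem (interior_subset hy) g
      rw [indicator_of_mem (interior_subset hz)]
      exact ((hd z).hasFDerivAt).congr_of_eventuallyEq h1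
    · by_cases hzK : z ∈ K
      · obtain ⟨h1, h2⟩ := h0 z ⟨subset_closure hzK, hz⟩
        rw [indicator_of_mem hzK, h2]
        have h3 := (hd z).hasFDerivAt
        rw [h2] at h3
        rw [hasFDerivAt_iff_isLittleO] at h3 ⊢
        rw [indicator_of_mem hzK, h1]
        simp only [h1, sub_zero, _root_.zero_apply] at h3 ⊢
        refine (Asymptotics.IsBigO.of_bound 1 (Eventually.of_forall fun y => ?_)).trans_isLittleO h3
        rw [one_mul]
        exact norm_indicator_le_norm_self g y
      · have h1 : indicator K g =ᶠ[𝓝 z] fun _ => 0 := by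
          filter_upwards [hK.isOpen_compl.mem_nhds hzK] with y hy
          exact indicator_of_notMem hy g
        rw [indicator_of_notMem hzK]
        exact (hasFDerivAt_const (0 : W) z).congr_of_eventuallyEq h1
  have hfd : ∀ z, fderiv ℝ (indicator K g) z = indicator K (fderiv ℝ g) z := fun z => (key z).fderiv
  refine ⟨?_, hfd⟩
  rw [contDiff_one_iff_fderiv]
  refine ⟨fun z => (key z).differentiableAt, ?_⟩
  have h1 : fderiv ℝ (indicator K g) = indicator K (fderiv ℝ g) := funext hfd
  rw [h1]
  exact continuous_indicator (fun z hz => (h0 z hz).2) (hg.continuous_fderiv (by simp)).continuousOn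

/-- MODULE C6 (`id_thm`): identity theorem. -/
theorem id_thm {V W : Type*} [NormedAddCommGroup V] [NormedSpace ℂ V] [NormedAddCommGroup W]
    [NormedSpace ℂ W] [CompleteSpace W] {O : Set V} (hO : IsOpen O) (hc : IsPreconnected O)
    {f : V → W} (hf : DifferentiableOn ℂ f O) {z₀ : V} (hz : z₀ ∈ O) (h0 : f =ᶠ[𝓝 z₀] 0) :
    ∀ z ∈ O, f z = 0 := by
  have hu : IsOpen {z | f =ᶠ[𝓝 z] 0} := isOpen_setOfPred_eventually_nhds
  have hsub : O ⊆ {z | f =ᶠ[𝓝 z] 0} := by
    refine hc.subset_of_closure_inter_subset hu ⟨z₀, hz, h0⟩ ?_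
    rintro z ⟨hzc, hzO⟩
    obtain ⟨ρ, hρ, hball⟩ := Metric.isOpen_iff.1 hO z hzO
    obtain ⟨s, hs, hsz⟩ := Metric.mem_closure_iff.1 hzc ρ hρ
    have hsb : s ∈ Metric.ball z ρ := by rw [Metric.mem_ball, dist_comm]; exact hsz
    have hall : ∀ y ∈ Metric.ball z ρ, f y = 0 := by
      intro y hy
      -- restriction to the complex line through `s` and `y`
      let ℓ : ℂ → V := fun t => s + t • (y - s)
      have hℓ : Differentiable ℂ ℓ :=
        (differentiable_const s).add (differentiable_id.smul_const (y - s))
      let D : Set ℂ := ℓ ⁻¹' Metric.ball z ρ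
      have hDo : IsOpen D := Metric.isOpen_ball.preimage hℓ.continuous
      have hDc : Convex ℝ D := by
        intro a ha b hb p q hp hq hpq
        have e : ℓ (p • a + q • b) = p • ℓ a + q • ℓ b := by
          simp only [ℓ]
          have e1 : s = (p + q) • s := by rw [hpq, one_smul]
          have e2 : (p • a + q • b) • (y - s) = p • (a • (y - s)) + q • (b • (y - s)) := by
            rw [add_smul, smul_assoc, smul_assoc]
          have e3 : ∀ u w : V, s + (u + w) = (p • s + u) + (q • s + w) := by
            intro u w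
            have e4 : s = p • s + q • s := by rw [← add_smul]; exact e1
            calc s + (u + w) = (p • s + q • s) + (u + w) := by rw [← e4]
              _ = _ := by abel
          rw [e2, e3, smul_add, smul_add]
        show ℓ (p • a + q • b) ∈ Metric.ball z ρ
        rw [e]
        exact convex_ball z ρ ha hb hp hq hpq
      have h0D : (0 : ℂ) ∈ D := by
        show ℓ 0 ∈ Metric.ball z ρ
        simpa [ℓ] using hsb
      have h1D : (1 : ℂ) ∈ D := by
        show ℓ 1 ∈ Metric.ball z ρ
        simpa [ℓ] using hy
      have hgd : DifferentiableOn ℂ (fun t => f (ℓ t)) D :=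
        (hf.mono hball).comp hℓ.differentiableOn (fun t ht => ht)
      have hga : AnalyticOnNhd ℂ (fun t => f (ℓ t)) D := hgd.analyticOnNhd hDo
      have hev : (fun t => f (ℓ t)) =ᶠ[𝓝 0] 0 := by
        have h2 : Tendsto ℓ (𝓝 0) (𝓝 s) := by
          have := hℓ.continuous.tendsto 0
          simpa [ℓ] using this
        exact h2.eventually hs
      have h3 := hga.eqOn_zero_of_preconnected_of_eventuallyEq_zero hDc.isPreconnected h0D hev h1D
      simpa [ℓ] using h3
    show f =ᶠ[𝓝 z] 0
    filter_upwards [Metric.ball_mem_nhds z hρ] with y hy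
    exact hall y hy
  intro z hz'
  have h1 : f =ᶠ[𝓝 z] 0 := hsub hz'
  exact h1.eq_of_nhds

end KBR
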